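import Pool.Agent.Helper30.DL.GoalsA

/-!
# MP_b4564f_an, packet SUMC: the elementary sum
-/

open Finset

namespace Pool.Agent.Helper56.DL

open Pool.Agent.Helper30.DL

lemma sum_h (k : ℕ) (r : ℝ) (h : ℕ → ℝ) (h0 : ∀ i, 0 ≤ h i)
    (h1 : ∀ i, h i - h (i + 1) ≤ r) :
    (h 0 ^ 2 - h k ^ 2) / 2 + r * (h 0 + h k) / 2 ≤ r * ∑ i ∈ range (k + 1), h i := by
  induction k with
  | zero => simp; linarith
  | succ k ih =>
    rw [sum_range_succ, mul_add]
    have := mul_nonneg (add_nonneg (h0 k) (h0 (k + 1))) (sub_nonneg.2 (h1 k))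
    nlinarith

theorem sumC : SumCStmt := by
  intro k r σ hr hσ0 hσ1
  set h : ℕ → ℝ := fun i => max (1 - r * (σ + i)) 0 with hh
  have hmin : ∀ i : ℕ, min (r * (σ + i)) 1 = 1 - h i := by
    intro i
    simp only [hh]
    rcases le_total (r * (σ + i)) 1 with h1 | h1
    · rw [min_eq_left h1, max_eq_left (by linarith)]; ring
    · rw [min_eq_right h1, max_eq_right (by linarith)]; ring
  have hsum : ∑ i ∈ range (k + 1), min (r * (σ + i)) 1 = (k + 1) - ∑ i ∈ range (k + 1), h i := by
    rw [sum_congr rfl (fun i _ => hmin i), sum_sub_distrib]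
    simp
  have hS := sum_h k r h (fun i => le_max_right _ _) (by
    intro i
    simp only [hh]
    have h1 : 1 - r * (σ + ((i + 1 : ℕ) : ℝ)) ≤ max (1 - r * (σ + ((i + 1 : ℕ) : ℝ))) 0 :=
      le_max_left _ _
    have h2 : 0 ≤ max (1 - r * (σ + ((i + 1 : ℕ) : ℝ))) 0 := le_max_right _ _
    have h3 : max (1 - r * (σ + (i : ℝ))) 0 ≤ max (1 - r * (σ + ((i + 1 : ℕ) : ℝ))) 0 + r := by
      apply max_le
      · push_cast at h1 ⊢
        linarith
      · linarith
    linarith)
  rw [hsum]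
  have hT : r * ((k + 1) - ∑ i ∈ range (k + 1), h i) - r * σ ≤
      r * (k + 1 / 2) + r / 2 - h 0 ^ 2 / 2 + h k ^ 2 / 2 - r * (h 0 + h k) / 2 - r * σ := by
    rw [mul_sub]
    linarith
  refine hT.trans ?_
  have hσ : σ * (1 - σ) ≤ 1 / 4 := by nlinarith [sq_nonneg (σ - 1 / 2)]
  have hrσ : r ^ 2 * (σ * (1 - σ)) ≤ r ^ 2 * (1 / 4) :=
    mul_le_mul_of_nonneg_left hσ (sq_nonneg r)
  have h0' : h 0 = max (1 - r * σ) 0 := by simp [hh]
  have hk0 : (0 : ℝ) ≤ k := Nat.cast_nonneg k
  have hrk : 0 ≤ r * k := mul_nonneg hr.le hk0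
  rcases le_or_gt 1 (r * (σ + k)) with hw | hw
  · have hhk : h k = 0 := by simp only [hh]; exact max_eq_right (by linarith)
    apply le_trans _ (le_max_left _ _)
    rw [hhk]
    rcases le_or_gt (r * σ) 1 with h1 | h1
    · rw [h0', max_eq_left (by linarith)]
      nlinarith
    · rw [h0', max_eq_right (by linarith)]
      nlinarith [sq_nonneg (r - 2)]
  · have hhk : h k = 1 - r * (σ + k) := by simp only [hh]; exact max_eq_left (by linarith)
    have h1 : r * σ < 1 := by rw [mul_add] at hw; linarith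
    have hh0 : h 0 = 1 - r * σ := by rw [h0', max_eq_left (by linarith)]
    have hx : h k = 1 - r * σ - r * k := by rw [hhk]; ring
    have hx0 : 0 ≤ h k := by rw [hhk]; linarith
    have hxle : h k ≤ 1 - r * k := by rw [hx]; nlinarith [mul_nonneg hr.le hσ0]
    rcases le_or_gt (h k) r with h2 | h2
    · apply le_trans _ (le_max_left _ _)
      rw [hh0]
      nlinarith [mul_nonneg hx0 (sub_nonneg.2 h2)]
    · apply le_trans _ (le_max_right _ _)
      have hmin' : min (r * (k + 1 / 2)) (1 + r / 2) = r * (k + 1 / 2) := by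
        apply min_eq_left
        rw [mul_add] at hw
        nlinarith [mul_nonneg hr.le hσ0]
      rw [hmin', hh0]
      have h3 : h k * (h k - r) ≤ (1 - r * k) * (1 - r * k - r) := by
        apply mul_le_mul hxle (by linarith) (by linarith)
        linarith
      nlinarith

end Pool.Agent.Helper56.DL
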