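import Pool.Agent.Helper30.DL.GoalsC

/-!
# MP_b4564f_an, packet TBL: soundness of the table check
-/

set_option autoImplicit false

namespace Pool.Agent.Helper56.DL.TBL

open Pool.Agent.Helper30.DL

lemma ab_cast (p n : ℕ) : ((AF.ab p n : ℕ) : ℝ) = |(p : ℝ) - n| := by
  change (((p - n) + (n - p) : ℕ) : ℝ) = _
  rcases le_total p n with h | h
  · rw [Nat.sub_eq_zero_of_le h, zero_add, Nat.cast_sub h, abs_of_nonpos]
    · ring
    · have : (p : ℝ) ≤ n := by exact_mod_cast h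
      linarith
  · rw [Nat.sub_eq_zero_of_le h, add_zero, Nat.cast_sub h, abs_of_nonneg]
    have : (n : ℝ) ≤ p := by exact_mod_cast h
    linarith

/-- One entry. -/
lemma enc_of_chk {ns j : ℕ} (hns : 0 < ns) {v w : AF} (h : chk1 ns j v w = true)
    (hz : w.cz = true) {x y ζ z val : ℝ} (hx : |x| ≤ 1) (hy : |y| ≤ 1) (hζ : |ζ| ≤ 1)
    (hzz : (ns : ℝ) * z = 2 * j + 1 - ns + ζ) (hv : v.Enc x y ζ val) : w.Enc x y z val := by
  have hn : (0 : ℝ) < ns := by exact_mod_cast hns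
  unfold AF.cz at hz
  simp only [Bool.and_eq_true] at hz
  obtain ⟨⟨⟨hz1, hz2⟩, hz3⟩, hz4⟩ := hz
  replace hz1 := Nat.eq_of_beq_eq_true hz1
  replace hz2 := Nat.eq_of_beq_eq_true hz2
  replace hz3 := Nat.eq_of_beq_eq_true hz3
  replace hz4 := Nat.eq_of_beq_eq_true hz4
  unfold chk1 at h
  have h1 := Nat.le_of_ble_eq_true h
  have h2 : ((((AF.ab (ns * v.cp + ns * w.cn + (w.zn * (2 * j + 1) + w.zp * ns))
      (ns * v.cn + ns * w.cp + (w.zp * (2 * j + 1) + w.zn * ns)) +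
      AF.ab (ns * v.zp + w.zn) (ns * v.zn + w.zp)) +
      ns * (v.r + (AF.ab v.xp v.xn + AF.ab v.yp v.yn)) : ℕ) : ℝ) ≤ ((ns * w.r : ℕ) : ℝ)) :=
    Nat.cast_le.2 h1
  push_cast at h2
  rw [ab_cast, ab_cast, ab_cast, ab_cast] at h2
  push_cast at h2
  unfold AF.Enc at hv ⊢
  rw [hz1, hz2, hz3, hz4]
  set E := (10000000000 : ℝ) * val - (((v.cp : ℝ) - v.cn) + ((v.xp : ℝ) - v.xn) * x
    + ((v.yp : ℝ) - v.yn) * y + ((v.zp : ℝ) - v.zn) * ζ) with hE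
  have key : (ns : ℝ) * ((10000000000 : ℝ) * val - (((w.cp : ℝ) - w.cn)
      + (((0 : ℕ) : ℝ) - ((0 : ℕ) : ℝ)) * x
      + (((0 : ℕ) : ℝ) - ((0 : ℕ) : ℝ)) * y + ((w.zp : ℝ) - w.zn) * z)) =
      ns * E + ns * (((v.xp : ℝ) - v.xn) * x) + ns * (((v.yp : ℝ) - v.yn) * y) +
      ((ns * v.cp + ns * w.cn + (w.zn * (2 * j + 1) + w.zp * ns)) -
        (ns * v.cn + ns * w.cp + (w.zp * (2 * j + 1) + w.zn * ns))) +
      ((ns * v.zp + w.zn) - (ns * v.zn + w.zp)) * ζ := by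
    have e1 : (ns : ℝ) * (((w.zp : ℝ) - w.zn) * z) = ((w.zp : ℝ) - w.zn) * (2 * j + 1 - ns + ζ) := by
      rw [← hzz]; ring
    rw [hE]
    push_cast
    linear_combination -e1
  have hb : (ns : ℝ) * |(10000000000 : ℝ) * val - (((w.cp : ℝ) - w.cn)
      + (((0 : ℕ) : ℝ) - ((0 : ℕ) : ℝ)) * x
      + (((0 : ℕ) : ℝ) - ((0 : ℕ) : ℝ)) * y + ((w.zp : ℝ) - w.zn) * z)| ≤ ns * w.r := by
    rw [← abs_of_pos hn, ← abs_mul, key, abs_of_pos hn]
    have a1 : |(ns : ℝ) * E| ≤ ns * v.r := by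
      rw [abs_mul, abs_of_pos hn]
      exact mul_le_mul_of_nonneg_left hv hn.le
    have a2 : |(ns : ℝ) * (((v.xp : ℝ) - v.xn) * x)| ≤ ns * |(v.xp : ℝ) - v.xn| := by
      rw [abs_mul, abs_of_pos hn, abs_mul]
      exact mul_le_mul_of_nonneg_left (mul_le_of_le_one_right (abs_nonneg _) hx) hn.le
    have a3 : |(ns : ℝ) * (((v.yp : ℝ) - v.yn) * y)| ≤ ns * |(v.yp : ℝ) - v.yn| := by
      rw [abs_mul, abs_of_pos hn, abs_mul]
      exact mul_le_mul_of_nonneg_left (mul_le_of_le_one_right (abs_nonneg _) hy) hn.le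
    have a4 : |(((ns : ℝ) * v.zp + w.zn) - (ns * v.zn + w.zp)) * ζ| ≤
        |((ns : ℝ) * v.zp + w.zn) - (ns * v.zn + w.zp)| := by
      rw [abs_mul]
      exact mul_le_of_le_one_right (abs_nonneg _) hζ
    refine (abs_add_le _ _).trans ?_
    refine (add_le_add (abs_add_le _ _) a4).trans ?_
    refine (add_le_add (add_le_add (abs_add_le _ _) le_rfl) le_rfl).trans ?_
    refine (add_le_add (add_le_add (add_le_add (abs_add_le _ _) a3) le_rfl) le_rfl).trans ?_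
    linarith
  exact le_of_mul_le_mul_left hb hn

/-- Lists. -/
lemma encL_of_chk {ns j : ℕ} (hns : 0 < ns) {x y ζ z : ℝ} (hx : |x| ≤ 1) (hy : |y| ≤ 1)
    (hζ : |ζ| ≤ 1) (hzz : (ns : ℝ) * z = 2 * j + 1 - ns + ζ) :
    ∀ (l m : List AF) (R : List ℝ), chkL ns j l m = true →
      List.Forall₂ (fun (A : AF) (v : ℝ) => A.Enc x y ζ v) l R →
      List.Forall₂ (fun (A : AF) (v : ℝ) => A.Enc x y z v) m R
  | [], [], R, _, hR => by
    cases hR
    exact List.Forall₂.nil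
  | [], w :: m, R, h, _ => by simp [chkL] at h
  | v :: l, [], R, h, _ => by simp [chkL] at h
  | v :: l, w :: m, R, h, hR => by
    unfold chkL at h
    simp only [Bool.and_eq_true] at h
    cases hR with
    | cons h1 h2 =>
      exact List.Forall₂.cons (enc_of_chk hns h.1 h.2.1 hx hy hζ hzz h1)
        (encL_of_chk hns hx hy hζ hzz l m _ h.2.2 h2)

/-- The position of `t`. -/
lemma exists_cell {t0 t1 ns : ℕ} (hns : 0 < ns) (h01 : t0 ≤ t1) {s : ℝ} (h0 : (t0 : ℝ) ≤ s)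
    (h1 : s ≤ t1) : ∃ (j : ℕ) (ζ : ℝ), j < ns ∧ |ζ| ≤ 1 ∧
      (2 * (ns : ℝ)) * s = t0 * (2 * ns - (2 * j + 1)) + t1 * (2 * j + 1) + (t1 - t0) * ζ := by
  have hn : (0 : ℝ) < ns := by exact_mod_cast hns
  rcases Nat.eq_or_lt_of_le h01 with h | h
  · subst h
    refine ⟨0, 0, hns, by simp, ?_⟩
    have : s = t0 := le_antisymm h1 h0
    rw [this]
    push_cast
    ring
  · have hd : (0 : ℝ) < (t1 : ℝ) - t0 := by
      have : (t0 : ℝ) < t1 := by exact_mod_cast h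
      linarith
    set u : ℝ := ns * ((s - t0) / (t1 - t0)) with hu
    have hu0 : 0 ≤ u := mul_nonneg hn.le (div_nonneg (by linarith) hd.le)
    have hu1 : u ≤ ns := by
      have : (s - t0) / (t1 - t0) ≤ 1 := (div_le_one hd).2 (by linarith)
      calc u ≤ ns * 1 := mul_le_mul_of_nonneg_left this hn.le
        _ = ns := mul_one _
    have hus : u * (t1 - t0) = ns * (s - t0) := by
      rw [hu, mul_assoc, div_mul_cancel₀ _ hd.ne']
    obtain ⟨j, hj, hj1, hj2⟩ : ∃ j : ℕ, j < ns ∧ (j : ℝ) ≤ u ∧ u ≤ j + 1 := by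
      rcases lt_or_ge u ns with hlt | hge
      · refine ⟨⌊u⌋₊, ?_, Nat.floor_le hu0, (Nat.lt_floor_add_one u).le⟩
        exact (Nat.floor_lt hu0).2 hlt
      · refine ⟨ns - 1, by omega, ?_, ?_⟩
        · have : ((ns - 1 : ℕ) : ℝ) ≤ ns := by exact_mod_cast Nat.sub_le _ _
          linarith
        · have : ((ns - 1 : ℕ) : ℝ) + 1 = ns := by
            rw [Nat.cast_sub hns]; push_cast; ring
          linarith
    refine ⟨j, 2 * (u - j) - 1, hj, abs_le.2 ⟨by linarith, by linarith⟩, ?_⟩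
    have : (2 * (ns : ℝ)) * s = 2 * (ns * (s - t0)) + 2 * ns * t0 := by ring
    rw [this, ← hus]
    ring

lemma nat_div_abs (a b : ℕ) (hb : 0 < b) : |(a : ℝ) / b - ((a / b : ℕ) : ℝ)| ≤ 1 := by
  have hb' : (0 : ℝ) < b := by exact_mod_cast hb
  have h1 : ((a / b : ℕ) : ℝ) ≤ (a : ℝ) / b := Nat.cast_div_le
  have h2 : (a : ℝ) / b < ((a / b : ℕ) : ℝ) + 1 := by
    rw [div_lt_iff₀ hb']
    have : a < (a / b + 1) * b := by
      have := Nat.lt_div_mul_add hb (a := a)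
      nlinarith
    exact_mod_cast this
  rw [abs_le]
  constructor <;> linarith

lemma tsub_enc {t0 t1 ns j : ℕ} (hns : 0 < ns) (h01 : t0 ≤ t1) (hj : j < ns) {x y ζ t : ℝ}
    (hζ : |ζ| ≤ 1)
    (h : (2 * (ns : ℝ)) * (10000000000 * t) =
      t0 * (2 * ns - (2 * j + 1)) + t1 * (2 * j + 1) + (t1 - t0) * ζ) :
    (tsub t0 t1 ns j).Enc x y ζ t := by
  have hn : (0 : ℝ) < ns := by exact_mod_cast hns
  unfold AF.Enc tsub
  have e1 := nat_div_abs (t0 * (2 * ns - (2 * j + 1)) + t1 * (2 * j + 1)) (2 * ns) (by omega)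
  have e2 := nat_div_abs (t1 - t0) (2 * ns) (by omega)
  have c1 : ((2 * ns - (2 * j + 1) : ℕ) : ℝ) = 2 * ns - (2 * j + 1) := by
    rw [Nat.cast_sub (by omega)]
    push_cast
    ring
  have c2 : ((t1 - t0 : ℕ) : ℝ) = t1 - t0 := by
    rw [Nat.cast_sub h01]
  have hA : ((t0 * (2 * ns - (2 * j + 1)) + t1 * (2 * j + 1) : ℕ) : ℝ) =
      t0 * (2 * ns - (2 * j + 1)) + t1 * (2 * j + 1) := by
    rw [Nat.cast_add, Nat.cast_mul, c1]
    push_cast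
    ring
  have hB : ((2 * ns : ℕ) : ℝ) = 2 * ns := by push_cast; ring
  rw [hA, hB] at e1
  rw [c2, hB] at e2
  have ht : 10000000000 * t = ((t0 : ℝ) * (2 * ns - (2 * j + 1)) + t1 * (2 * j + 1)) / (2 * ns) +
      ((t1 : ℝ) - t0) / (2 * ns) * ζ := by
    field_simp
    linarith
  change |(10000000000 : ℝ) * t - (((((t0 * (2 * ns - (2 * j + 1)) + t1 * (2 * j + 1)) / (2 * ns)
    : ℕ) : ℝ) - ((0 : ℕ) : ℝ)) + (((0 : ℕ) : ℝ) - ((0 : ℕ) : ℝ)) * x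
    + (((0 : ℕ) : ℝ) - ((0 : ℕ) : ℝ)) * y
    + ((((t1 - t0) / (2 * ns) : ℕ) : ℝ) - ((0 : ℕ) : ℝ)) * ζ)| ≤ ((2 : ℕ) : ℝ)
  rw [ht]
  set a := ((t0 : ℝ) * (2 * ns - (2 * j + 1)) + t1 * (2 * j + 1)) / (2 * ns)
  set a' := (((t0 * (2 * ns - (2 * j + 1)) + t1 * (2 * j + 1)) / (2 * ns) : ℕ) : ℝ)
  set b := ((t1 : ℝ) - t0) / (2 * ns)
  set b' := (((t1 - t0) / (2 * ns) : ℕ) : ℝ)
  have e3 : |(b - b') * ζ| ≤ 1 := by
    rw [abs_mul]
    calc |b - b'| * |ζ| ≤ 1 * 1 := mul_le_mul e2 hζ (abs_nonneg _) zero_le_one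
      _ = 1 := one_mul 1
  have : a + b * ζ - (a' - ((0 : ℕ) : ℝ) + (((0 : ℕ) : ℝ) - ((0 : ℕ) : ℝ)) * x
      + (((0 : ℕ) : ℝ) - ((0 : ℕ) : ℝ)) * y + (b' - ((0 : ℕ) : ℝ)) * ζ) =
      (a - a') + (b - b') * ζ := by
    push_cast
    ring
  rw [this]
  refine (abs_add_le _ _).trans ?_
  push_cast
  linarith

lemma QA_enc (x y z : ℝ) : QA.Enc x y z (Real.pi / 2) := by
  unfold AF.Enc QA AF.cst
  have h1 := Real.pi_gt_d20
  have h2 := Real.pi_lt_d20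
  rw [abs_le]
  push_cast
  constructor <;> linarith

lemma tbl1_of_tblOK {P : PmA} {e e1 : AF} {t0 t1 ns : ℕ} {T : Tb AF} :
    ∀ n : ℕ, tblOK P e e1 t0 t1 ns T n = true → ∀ j < n, tbl1 P e e1 t0 t1 ns j T = true
  | 0, _, j, hj => absurd hj (by omega)
  | n + 1, h, j, hj => by
    unfold tblOK at h
    simp only [Bool.and_eq_true] at h
    rcases Nat.lt_succ_iff_lt_or_eq.1 hj with h1 | h1
    · exact tbl1_of_tblOK n h.2 j h1
    · rw [h1]; exact h.1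

theorem tbl (hA : AfsStmt) (hT : TrigStmt) (hB : MkbStmt) (hC : MkcStmt) : TblStmt := by
  intro Q P e e1 em t0 t1 ns T hP he he1 hns h01 hok t ht0 ht1 hlo hhi
  obtain ⟨j, ζ, hj, hζ, hpos⟩ := exists_cell hns h01 hlo hhi
  have hn : (0 : ℝ) < ns := by exact_mod_cast hns
  have h1 := tbl1_of_tblOK ns hok j hj
  unfold tbl1 at h1
  simp only [Bool.and_eq_true] at h1
  obtain ⟨hokA, hchk⟩ := h1
  have hBs : ∀ x y : ℝ, |x| ≤ 1 → |y| ≤ 1 → EncBs (mkBs (tsub t0 t1 ns j) QA) x y ζ t := by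
    intro x y hx hy
    have ht : (tsub t0 t1 ns j).Enc x y ζ t := tsub_enc hns h01 hj hζ hpos
    have hu : (tsub t0 t1 ns j * tsub t0 t1 ns j).Enc x y ζ (t ^ 2) := by
      rw [sq]
      exact (hA x y ζ hx hy hζ _ _ _ _ ht ht).2.2.1
    have htr := hT x y ζ hx hy hζ _ t ht0 ht1 hu
    exact ⟨ht, QA_enc x y ζ, htr.1, htr.2⟩
  refine ⟨⟨(2 * j + 1 - ns + ζ) / ns, ?_, ?_⟩, ?_⟩
  · have h2 := abs_le.1 hζ
    have hj' : (j : ℝ) + 1 ≤ ns := by exact_mod_cast hj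
    have hj0 : (0 : ℝ) ≤ j := Nat.cast_nonneg j
    rw [abs_le]
    constructor
    · rw [le_div_iff₀ hn]; linarith
    · rw [div_le_iff₀ hn]; linarith
  · intro x y hx hy
    have hen := hC x y ζ hx hy hζ _ t Q P ht0 ht1 (hBs x y hx hy) hP hokA e e1 em
      (he x y ζ) (he1 x y ζ)
    exact encL_of_chk hns hx hy hζ (mul_div_cancel₀ _ hn.ne') _ _ _ hchk hen
  · exact (hB 0 0 ζ (by simp) (by simp) hζ _ t Q P ht0 ht1
      (hBs 0 0 (by simp) (by simp)) hP hokA).2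

end Pool.Agent.Helper56.DL.TBL
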